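import Mathlib
import Pool.Agent.MP_048773_co.Assembly

/-!
The expected degree sequence fails for infinitely many maximum degrees: for every `Δ ≥ 10 ^ 7 + 2` with
`Δ ≡ 2 mod 6` and every `n ≥ Δ ^ 5` with `n ≡ (Δ - 2) / 2 mod Δ + 1`, no graph of largest spectral radius
among the connected nonregular graphs on `n` vertices with maximum degree `Δ` has the degree sequence
`(Δ, …, Δ, Δ - 2)`.
-/

set_option autoImplicit false

open Matrix Classical

namespace Pool.Agent.Results.MP_048773_co.NoExtremalClass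

/-- the spectral radius: the largest eigenvalue of the adjacency matrix -/
noncomputable def lam {n : ℕ} (G : SimpleGraph (Fin n)) : ℝ := sSup (spectrum ℝ (G.adjMatrix ℝ))

/-- `G` is connected, nonregular, with maximum degree `Δ` -/
def Adm {n : ℕ} (Δ : ℕ) (G : SimpleGraph (Fin n)) : Prop :=
  G.Connected ∧ G.maxDegree = Δ ∧ ¬ ∃ d : ℕ, G.IsRegularOfDegree d

/-- the set `𝒢(n, Δ)` of the problem -/
def Extremal (n Δ : ℕ) : Set (SimpleGraph (Fin n)) :=
  {G | Adm Δ G ∧ ∀ H : SimpleGraph (Fin n), Adm Δ H → lam H ≤ lam G}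

theorem spec_iff {n : ℕ} (A : Matrix (Fin n) (Fin n) ℝ) (t : ℝ) :
    t ∈ spectrum ℝ A ↔ ∃ v : Fin n → ℝ, v ≠ 0 ∧ A *ᵥ v = t • v := by
  rw [← Matrix.spectrum_toLin', ← Module.End.hasEigenvalue_iff_mem_spectrum]
  constructor
  · intro h
    obtain ⟨v, hv⟩ := h.exists_hasEigenvector
    refine ⟨v, hv.2, ?_⟩
    have := hv.apply_eq_smul
    rwa [Matrix.toLin'_apply] at this
  · rintro ⟨v, hv, h⟩
    refine Module.End.hasEigenvalue_of_hasEigenvector (x := v) ?_
    refine ⟨?_, hv⟩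
    rw [Module.End.mem_eigenspace_iff, Matrix.toLin'_apply, h]

/-- for a connected graph the supremum of the Rayleigh quotients is the largest eigenvalue -/
theorem lam_eq {n : ℕ} (hn : 2 ≤ n) (G : SimpleGraph (Fin n)) (hG : G.Connected) :
    lam G = Pool.MP_048773_co.lamS G := by
  obtain ⟨x, hx, heig, hray⟩ := Pool.MP_048773_co.perron hn G hG
  have hmem : Pool.MP_048773_co.lamS G ∈ spectrum ℝ (G.adjMatrix ℝ) := by
    rw [spec_iff]
    refine ⟨x, ?_, ?_⟩
    · intro h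
      have h1 := hx ⟨0, by omega⟩
      rw [h] at h1
      exact lt_irrefl _ h1
    · funext v
      rw [SimpleGraph.adjMatrix_mulVec_apply, Pi.smul_apply, smul_eq_mul]
      rw [heig v]
      rfl
  have hle : ∀ t ∈ spectrum ℝ (G.adjMatrix ℝ), t ≤ Pool.MP_048773_co.lamS G := by
    intro t ht
    rw [spec_iff] at ht
    obtain ⟨v, hv, h⟩ := ht
    have h1 : v ⬝ᵥ (G.adjMatrix ℝ *ᵥ v) ≤ Pool.MP_048773_co.lamS G * (v ⬝ᵥ v) := hray v
    rw [h, dotProduct_smul, smul_eq_mul] at h1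
    have h2 : 0 < v ⬝ᵥ v := by
      have h3 : 0 ≤ v ⬝ᵥ v := by
        simp only [dotProduct]
        exact Finset.sum_nonneg fun i _ => mul_self_nonneg _
      have h4 : v ⬝ᵥ v ≠ 0 := fun h => hv (dotProduct_self_eq_zero.1 h)
      exact lt_of_le_of_ne h3 h4.symm
    exact le_of_mul_le_mul_right h1 h2
  exact le_antisymm (csSup_le ⟨_, hmem⟩ hle) (le_csSup ⟨_, hle⟩ hmem)

theorem not_regular_iff {n : ℕ} (G : SimpleGraph (Fin n)) (hG : G.Connected) :
    (¬ ∃ d : ℕ, G.IsRegularOfDegree d) ↔ ∃ u v : Fin n, G.degree u ≠ G.degree v := by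
  have hne := hG.nonempty
  constructor
  · intro h
    by_contra hcon
    push Not at hcon
    exact h ⟨G.degree (Classical.arbitrary _), fun v => hcon v _⟩
  · rintro ⟨u, v, huv⟩ ⟨d, hd⟩
    exact huv ((hd u).trans (hd v).symm)

theorem result (Δ n : ℕ) (hΔ : 10 ^ 7 + 2 ≤ Δ) (h6 : Δ % 6 = 2) (hn : Δ ^ 5 ≤ n)
    (hmod : n % (Δ + 1) = (Δ - 2) / 2) :
    (Extremal n Δ).Nonempty ∧
      ∀ G ∈ Extremal n Δ, ¬ ∃ v : Fin n, G.degree v = Δ - 2 ∧ ∀ u : Fin n, u ≠ v → G.degree u = Δ := by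
  obtain ⟨q, rfl⟩ : ∃ q, Δ = q + 2 := ⟨Δ - 2, by omega⟩
  have hq6 : 6 ∣ q := by omega
  have hqn : q ^ 5 ≤ n := (Nat.pow_le_pow_left (by omega) 5).trans hn
  have hn0 : q + 2 + 1 ≤ n := by
    have h1 : (q + 2) ^ 2 ≤ (q + 2) ^ 5 := Nat.pow_le_pow_right (by omega) (by norm_num)
    have h2 : (q + 2) * 2 ≤ (q + 2) ^ 2 := by
      rw [pow_two]
      exact Nat.mul_le_mul_left _ (by omega)
    omega
  obtain ⟨k, hk⟩ : ∃ k, n = k * (q + 3) + (q + 3) + q / 2 := by
    have h1 : 1 ≤ n / (q + 2 + 1) := (Nat.one_le_div_iff (by omega)).2 hn0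
    refine ⟨n / (q + 2 + 1) - 1, ?_⟩
    have h2 := Nat.div_add_mod n (q + 2 + 1)
    rw [hmod] at h2
    obtain ⟨m, hm⟩ : ∃ m, n / (q + 2 + 1) = m + 1 := ⟨n / (q + 2 + 1) - 1, by omega⟩
    rw [hm] at h2 ⊢
    have e : (q + 2 - 2) / 2 = q / 2 := by simp
    rw [e] at h2
    rw [Nat.add_sub_cancel, ← h2]
    ring
  have hn2 : 2 ≤ n := by omega
  constructor
  · have hne : ∃ H : SimpleGraph (Fin n), Adm (q + 2) H := by
      subst hk
      obtain ⟨H, hdec, hHc, hHle, ⟨u1, hu1⟩, ⟨u2, hu2⟩, -⟩ :=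
        Pool.MP_048773_co.exists_RGraph q k (by omega) hq6
      have hdec' : hdec = fun a b => propDecidable (H.Adj a b) := Subsingleton.elim _ _
      subst hdec'
      have hHdeg : ∀ v, H.degree v ≤ q + 2 := fun v => by convert hHle v
      have h1 : H.degree u1 = q + 2 := by convert hu1
      have h2 : H.degree u2 ≠ q + 2 := by convert hu2
      refine ⟨H, hHc, ?_, (not_regular_iff H hHc).2 ⟨u1, u2, by rw [h1]; exact fun h => h2 h.symm⟩⟩
      apply le_antisymm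
      · exact SimpleGraph.maxDegree_le_of_forall_degree_le _ _ hHdeg
      · have := H.degree_le_maxDegree u1
        omega
    obtain ⟨G, hG, hmax⟩ := Set.exists_max_image {H : SimpleGraph (Fin n) | Adm (q + 2) H}
      (fun H => lam H) (Set.toFinite _) hne
    exact ⟨G, hG, fun H hH => hmax H hH⟩
  · rintro G ⟨hG, hmax⟩ ⟨v, hv, hdeg⟩
    refine Pool.MP_048773_co.no_extremal q k n (by omega) hq6 hk hqn G hG.1 (v0 := v)
      (by simpa using hv) hdeg ?_
    intro H h1 h2 h3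
    rw [← lam_eq hn2 H h1, ← lam_eq hn2 G hG.1]
    exact hmax H ⟨h1, h2, (not_regular_iff H h1).2 h3⟩

end Pool.Agent.Results.MP_048773_co.NoExtremalClass
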